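import Pool.Agent.MP_db5b97_nt.H85.Spec2
import Pool.Agent.MP_db5b97_nt.H30.B

/-! Galois descent and permuted eigenlines. -/

namespace Pool.Agent.MP_db5b97_nt.H53

open H85 H30 Module Polynomial

theorem rowDS : RowDS := by
  classical
  intro E W _ _ _ _ π E0 U hsl h0 hst ⟨HU, hU1, hU2⟩ hker
  refine eq_top_iff.2 fun w _ => ?_
  by_contra hw
  obtain ⟨f, hf, hf0⟩ := Submodule.exists_dual_map_eq_bot_of_notMem hw inferInstance
  obtain ⟨Hw, hw1, hw2⟩ := hst w
  obtain ⟨L, _, hL⟩ := (krullTopology_mem_nhds_one_iff ℚ Om _).1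
    (((h0.inter hU1).inter hw1).mem_nhds ⟨⟨one_mem _, one_mem _⟩, one_mem _⟩)
  let res : E → (L →ₐ[ℚ] Om) := fun e => (π e : Om →ₐ[ℚ] Om).comp L.val
  have key : ∀ e ∈ U, ∀ e' ∈ U, res e = res e' → e • w = e' • w := fun e he e' he' h => by
    obtain ⟨⟨⟨e0, h1, h2⟩, h3⟩, h4⟩ := hL (show π (e⁻¹ * e') ∈ L.fixingSubgroup from
      (IntermediateField.mem_fixingSubgroup_iff _ _).2 fun x hx => by
        have h5 : π e x = π e' x := AlgHom.congr_fun h ⟨x, hx⟩
        rw [map_mul, map_inv, AlgEquiv.mul_apply, ← h5, ← AlgEquiv.mul_apply, inv_mul_cancel,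
          AlgEquiv.one_apply])
    rw [← h2] at h3 h4
    have h5 := hker (e⁻¹ * e' * e0⁻¹) (U.mul_mem (U.mul_mem (U.inv_mem he) he')
      (U.inv_mem (hU2 e0 h1 h3))) (by rw [map_mul, ← h2, map_inv, mul_inv_cancel]) (e0 • w)
    have h6 : e0 • w = w := hw2 e0 h1 h4
    rw [mul_smul, inv_smul_smul, h6, mul_smul, inv_smul_eq_iff] at h5
    exact h5.symm
  let v : (L →ₐ[ℚ] Om) → W := fun φ => if h : ∃ e ∈ U, res e = φ then h.choose • w else 0
  have hv : ∀ e ∈ U, v (res e) = e • w := fun e he => by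
    have h : ∃ e' ∈ U, res e' = res e := ⟨e, he, rfl⟩
    simp only [v, dif_pos h]
    exact key _ h.choose_spec.1 _ he h.choose_spec.2
  let act : E → (L →ₐ[ℚ] Om) → (L →ₐ[ℚ] Om) := fun u φ => (π u : Om →ₐ[ℚ] Om).comp φ
  have hact : ∀ u u' φ, act (u * u') φ = act u (act u' φ) := fun u u' φ => by
    ext x; simp [act]
  have hone : ∀ φ, act 1 φ = φ := fun φ => by ext x; simp [act]
  have hres : ∀ u e, act u (res e) = res (u * e) := fun u e => by ext x; simp [act, res]
  have huv : ∀ u ∈ U, ∀ φ, u • v φ = v (act u φ) := fun u hu φ => by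
    by_cases h : ∃ e ∈ U, res e = φ
    · obtain ⟨e, he, rfl⟩ := h
      rw [hres, hv e he, hv _ (U.mul_mem hu he), mul_smul]
    · have h' : ¬ ∃ e ∈ U, res e = act u φ := fun ⟨e, he, h'⟩ => h ⟨u⁻¹ * e,
        U.mul_mem (U.inv_mem hu) he, by rw [← hres, h', ← hact, inv_mul_cancel, hone]⟩
      simp only [v, dif_neg h, dif_neg h', smul_zero]
  have hfix : ∀ a : L, ∑ φ : L →ₐ[ℚ] Om, φ a * f (v φ) = 0 := fun a => by
    have h1 : ∀ u ∈ U, u • ∑ φ : L →ₐ[ℚ] Om, φ a • v φ = ∑ φ : L →ₐ[ℚ] Om, φ a • v φ :=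
      fun u hu => by
      rw [Finset.smul_sum]
      refine Fintype.sum_bijective (act u) (Function.bijective_iff_has_inverse.2 ⟨act u⁻¹,
        fun φ => by rw [← hact, inv_mul_cancel, hone],
        fun φ => by rw [← hact, mul_inv_cancel, hone]⟩) _ _ fun φ => ?_
      rw [hsl, huv u hu]
      rfl
    have h2 : f (∑ φ : L →ₐ[ℚ] Om, φ a • v φ) = 0 := by
      rw [← Submodule.mem_bot Om, ← hf0]
      exact Submodule.mem_map_of_mem (Submodule.subset_span h1)
    simpa using h2
  have h3 := Fintype.linearIndependent_iff.1 (linearIndependent_algHom_toLinearMap ℚ L Om)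
    (fun φ => f (v φ)) (by
      ext a
      simpa [LinearMap.sum_apply, mul_comm] using hfix a) (res 1)
  rw [hv 1 U.one_mem, one_smul] at h3
  exact hf h3

theorem sep_iff {K : Type} [Field K] [CharZero K] {p : K[X]} {n : ℕ} (h : p.Monic)
    (hn : p.natDegree = n) : p.Separable ↔ resultant p (derivative p) n (n - 1) ≠ 0 := by
  rw [← hn, ← natDegree_derivative, ← isUnit_iff_ne_zero, isUnit_resultant_iff_isCoprime h]
  rfl

theorem sep_nat {W : Type} [AddCommGroup W] [Module Om W] [FiniteDimensional Om W]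
    (c g : W →ₗ[Om] W) (a : Om) (h : (c + a • g).charpoly.Separable) :
    ∃ t : ℕ, (c + t • g).charpoly.Separable := by
  let b := Module.finBasis Om W
  let M : Matrix _ _ Om[X] := (LinearMap.toMatrix b b c).map C +
    (X : Om[X]) • (LinearMap.toMatrix b b g).map C
  let D : Om[X] := resultant M.charpoly (derivative M.charpoly) (finrank Om W) (finrank Om W - 1)
  have hD : ∀ t : Om, (c + t • g).charpoly.Separable ↔ D.eval t ≠ 0 := fun t => by
    have h1 : (c + t • g).charpoly = M.charpoly.map (evalRingHom t) := by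
      rw [← Matrix.charpoly_map, ← LinearMap.charpoly_toMatrix _ b]
      congr 1
      ext i j
      simp only [M, map_add, map_smul, Matrix.add_apply, Matrix.smul_apply, Matrix.map_apply,
        smul_eq_mul, coe_evalRingHom, eval_add, eval_mul, eval_C, eval_X]
    rw [sep_iff (LinearMap.charpoly_monic _) (LinearMap.charpoly_natDegree _), h1, derivative_map,
      resultant_map_map]
    rfl
  have h0 : D ≠ 0 := fun h0 => (hD a).1 h (by rw [h0, eval_zero])
  by_contra hc
  refine h0 (eq_zero_of_infinite_isRoot D (Set.infinite_of_injective_forall_mem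
    (f := fun t : ℕ => (t : Om)) Nat.cast_injective fun t => ?_))
  by_contra h1
  exact hc ⟨t, by rw [← Nat.cast_smul_eq_nsmul Om]; exact (hD t).2 h1⟩

theorem rowTOR (hD : RowDS) : RowTOR := by
  classical
  intro E W _ _ _ _ _ π E0 hsl h0 hst hfin hcomm
  have hL : Lin W π.ker := fun g hg a w => by rw [hsl, show π g = 1 from hg]; rfl
  -- common eigenvectors span
  have hspan : Submodule.span Om {w : W | ∀ g ∈ π.ker, ∃ c : Om, g • w = c • w} = ⊤ := by
    set S := Submodule.span Om {w : W | ∀ g ∈ π.ker, ∃ c : Om, g • w = c • w}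
    have hS : Inv π.ker S := fun g hg w hw => by
      refine (Submodule.span_le (p := S.comap (lin hL hg))).2 (fun x hx => ?_) hw
      obtain ⟨c, hc⟩ := hx g hg
      show g • x ∈ S
      rw [hc]
      exact S.smul_mem c (Submodule.subset_span hx)
    obtain ⟨e, he⟩ := maschke hL hS
    refine eq_top_iff.2 fun w _ => ?_
    by_cases hw : w - e w = 0
    · rw [sub_eq_zero.1 hw]; exact he.mem w
    obtain ⟨W1, k1, -, k2, -⟩ := decomp hL _ _ rfl (he.ker_inv (W2 := ⊤) fun _ _ _ _ => trivial) _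
      (he.sub_mem le_top trivial) hw
    obtain ⟨x, hx, hx0⟩ := (Submodule.ne_bot_iff _).1 k2.2.1
    refine absurd ((Submodule.eq_bot_iff _).1 (he.disj (W2 := ⊤)) x
      ⟨Submodule.subset_span fun g hg => ?_, k1 hx⟩) hx0
    obtain ⟨c, hc⟩ := schur hL k2 hg fun g' hg' y _ => hcomm g g' hg hg' y
    exact ⟨c, hc x hx⟩
  obtain ⟨s, hs, hs1, hs2⟩ := exists_linearIndependent Om
    {w : W | ∀ g ∈ π.ker, ∃ c : Om, g • w = c • w}
  let b : Basis s Om W := Basis.mk hs2 (by rw [Subtype.range_coe, hs1, hspan])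
  have hb : ∀ i, ∀ g ∈ π.ker, ∃ c : Om, g • b i = c • b i := fun i => by
    rw [Basis.mk_apply]; exact hs i.2
  have := FiniteDimensional.fintypeBasisIndex b
  let lam : s → Om := fun i => ((Fintype.equivFin s i : ℕ) : Om)
  have hlam : Function.Injective lam :=
    Nat.cast_injective.comp (Fin.val_injective.comp (Fintype.equivFin s).injective)
  let b0 : W →ₗ[Om] W := Matrix.toLin b b (Matrix.diagonal lam)
  have hb0 : ∀ i, b0 (b i) = lam i • b i := fun i => by
    simp [b0, Matrix.toLin_self, Matrix.diagonal_apply]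
  have hsep0 : b0.charpoly.Separable := by
    rw [← LinearMap.charpoly_toMatrix _ b, LinearMap.toMatrix_toLin, Matrix.charpoly_diagonal]
    exact separable_prod_X_sub_C_iff.2 hlam
  -- the centralizer
  let B : Submodule Om (W →ₗ[Om] W) :=
    { carrier := {φ | ∀ g ∈ π.ker, cj hsl g φ = φ}
      add_mem' := fun h1 h2 g hg => by rw [cj_add, h1 g hg, h2 g hg]
      zero_mem' := fun g _ => cj_zero hsl g
      smul_mem' := fun a φ h g hg => by rw [cj_smul, h g hg, show π g = 1 from hg]; rfl }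
  have hB0 : b0 ∈ B := fun g hg => b.ext fun i => by
    obtain ⟨c, hc⟩ := hb i g⁻¹ (π.ker.inv_mem hg)
    rw [cj_apply, hc, map_smul, hb0, smul_comm c, ← hc, hL g hg, smul_inv_smul]
  have hB : ∀ u, ∀ φ ∈ B, cj hsl u φ ∈ B := fun u φ hφ g hg => by
    have h1 := hφ (u⁻¹ * g * u) (by simp [MonoidHom.mem_ker, show π g = 1 from hg])
    conv_rhs => rw [← h1]
    rw [← cj_mul, ← cj_mul]
    congr 1
    group
  let : DistribMulAction E B :=
    { smul := fun u φ => ⟨cj hsl u φ, hB u φ φ.2⟩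
      one_smul := fun φ => Subtype.ext (cj_one hsl φ)
      mul_smul := fun u v φ => Subtype.ext (cj_mul hsl u v φ)
      smul_zero := fun u => Subtype.ext (cj_zero hsl u)
      smul_add := fun u φ ψ => Subtype.ext (cj_add hsl u φ ψ) }
  have hsp := hD E B π E0 ⊤ (fun e a φ => Subtype.ext (cj_smul hsl e a φ)) h0 (fun φ => by
      refine ((OP.all fun i => hst (b i)).and (OP.all fun i => hst (φ.1 (b i)))).mono
        fun e he => Subtype.ext (b.ext fun i => ?_)
      have h1 : e⁻¹ • b i = b i := (MulAction.stabilizer E (b i)).inv_mem (he.1 i)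
      show e • φ.1 (e⁻¹ • b i) = _
      rw [h1]
      exact he.2 i) ⟨⊤, isOpen_univ, fun _ _ _ => trivial⟩
    fun g _ hg φ => Subtype.ext (φ.2 g hg)
  have hgood : ∀ φ ∈ Submodule.span Om {φ : B | ∀ e ∈ (⊤ : Subgroup E), e • φ = φ},
      ∀ c : W →ₗ[Om] W, (c + φ).charpoly.Separable →
        ∃ ψ : W →ₗ[Om] W, (∀ e, cj hsl e ψ = ψ) ∧ (c + ψ).charpoly.Separable := fun φ hφ => by
    induction hφ using Submodule.closure_induction with
    | zero => exact fun c h => ⟨0, cj_zero hsl, h⟩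
    | add x y _ _ hx hy =>
      intro c h
      obtain ⟨ψ, h1, h2⟩ := hy (c + x) (by rwa [add_assoc])
      obtain ⟨ψ', h3, h4⟩ := hx (c + ψ) (by rwa [add_right_comm])
      exact ⟨ψ + ψ', fun e => by rw [cj_add, h1, h3], by rwa [← add_assoc]⟩
    | smul_mem a x hx =>
      intro c h
      obtain ⟨t, ht⟩ := sep_nat c x a h
      refine ⟨t • (x : W →ₗ[Om] W), fun e => ?_, ht⟩
      rw [← Nat.cast_smul_eq_nsmul Om, cj_smul, map_natCast]
      exact congrArg (fun z : B => (t : Om) • (z : W →ₗ[Om] W)) (hx e trivial)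
  obtain ⟨ψ, hψ, hsep⟩ := hgood ⟨b0, hB0⟩ (hsp ▸ trivial) 0 (by rwa [zero_add])
  rw [zero_add] at hsep
  have hmem : ∀ x, x ∈ ψ.charpoly.roots.toFinset ↔ Module.End.HasEigenvalue ψ x := fun x => by
    rw [Multiset.mem_toFinset, mem_roots ψ.charpoly_monic.ne_zero,
      Module.End.hasEigenvalue_iff_isRoot_charpoly]
  have hcard : ψ.charpoly.roots.toFinset.card = finrank Om W := by
    rw [Multiset.toFinset_card_of_nodup (nodup_roots hsep), ← (IsAlgClosed.splits _).natDegree_eq_card_roots,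
      LinearMap.charpoly_natDegree]
  generalize ψ.charpoly.roots.toFinset = Y at hmem hcard
  have : ∀ x, ∃ w : W, x ∈ Y → Module.End.HasEigenvector ψ x w := fun x => by
    by_cases h : x ∈ Y
    · exact ((hmem x).1 h).exists_hasEigenvector.imp fun _ h _ => h
    · exact ⟨0, fun h' => absurd h' h⟩
  choose w hw using this
  have hli : LinearIndependent Om fun x : Y => w x :=
    Module.End.eigenvectors_linearIndependent' ψ (fun x : Y => (x : Om)) Subtype.val_injective _
      fun x => hw x x.2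
  have htop := hli.span_eq_top_of_card_eq_finrank' (by rw [Fintype.card_coe, hcard])
  refine ⟨Y, w, hcard, hli, by rw [← htop, Set.image_eq_range]; rfl, fun e x hx => ?_⟩
  have h1 : ψ (e • w x) = π e x • e • w x := by
    rw [← hψ e, cj_apply, inv_smul_smul, (hw x hx).apply_eq_smul, hsl]
  have h2 : π e x ∈ Y := (hmem _).2 (Module.End.hasEigenvalue_of_hasEigenvector
    ⟨Module.End.mem_eigenspace_iff.2 h1, (smul_ne_zero_iff_ne e).2 (hw x hx).2⟩)
  refine ⟨h2, ?_⟩
  obtain ⟨c, hc⟩ := (Submodule.mem_span_range_iff_exists_fun Om).1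
    (htop ▸ Submodule.mem_top (x := e • w x))
  have h3 := Fintype.linearIndependent_iff.1 hli (fun y => c y * (y - π e x)) (by
    rw [← hc, map_sum, Finset.smul_sum, ← sub_eq_zero, ← Finset.sum_sub_distrib] at h1
    rw [← h1]
    refine Finset.sum_congr rfl fun y _ => ?_
    rw [map_smul, (hw y y.2).apply_eq_smul, smul_smul, smul_smul, ← sub_smul, mul_sub,
      mul_comm (π e x)])
  refine ⟨c ⟨_, h2⟩, ?_⟩
  rw [← hc, Finset.sum_eq_single ⟨_, h2⟩ (fun y _ hy => ?_) (by simp)]
  rw [(mul_eq_zero.1 (h3 y)).resolve_right fun h => hy (Subtype.ext (sub_eq_zero.1 h)), zero_smul]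

end Pool.Agent.MP_db5b97_nt.H53
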