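import Pool.Agent.MP_db5b97_nt.H31.SpecA
import Pool.Agent.MP_db5b97_nt.H35.C
import Pool.Agent.MP_db5b97_nt.H61.TOP

/-! Two reduction steps with sharp bounds. -/

namespace Pool.Agent.MP_db5b97_nt.H53

section

open H85 H35

theorem rowCs : H85.RowTOR → H31.RowCs := by
  classical
  intro hT n Bn hP E W _ _ _ _ _ π E0 r hn hs hE0 hop hi hfin hr hexp hcomm
  obtain ⟨X, w, hcard, hli, hspan, hw⟩ := hT E W π E0 hs hE0 hop hfin hcomm
  have hX : ∀ e : E, ∀ x ∈ X, π e x ∈ X := fun e x hx => (hw e x hx).1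
  have hX' : ∀ e : E, ∀ x, π e x ∈ X → x ∈ X := fun e x hx => by
    simpa using hX e⁻¹ _ hx
  have hw0 : ∀ x ∈ X, w x ≠ 0 := fun x hx => hli.ne_zero ⟨x, hx⟩
  have hU : ∀ (e : E) (x : Om), ∃ U : Un Om,
      (x ∈ X → e • w x = U.val • w (π e x)) ∧ (x ∉ X → U = 0) := by
    intro e x
    by_cases hx : x ∈ X
    · obtain ⟨u, hu⟩ := (hw e x hx).2
      have h0 : u ≠ 0 := fun h => hw0 x hx ((smul_eq_zero_iff_eq e).1 (by simpa [h] using hu))
      exact ⟨Un.mk u h0, fun _ => hu, fun h => (h hx).elim⟩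
    · exact ⟨0, fun h => (hx h).elim, fun _ => rfl⟩
  choose U hU1 hU0 using hU
  have hUm : ∀ e e' x, U (e * e') x = U e (π e' x) + π e • U e' x := by
    intro e e' x
    by_cases hx : x ∈ X
    · have h1 := hU1 (e * e') x hx
      rw [mul_smul, hU1 e' x hx, hs, hU1 e _ (hX e' x hx), smul_smul, map_mul,
        AlgEquiv.mul_apply] at h1
      have h2 := smul_left_injective Om (hw0 _ (hX e _ (hX e' x hx))) h1
      refine Un.ext ?_
      rw [Un.val_add, Un.val_smul, ← h2, mul_comm]
      rfl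
    · rw [hU0 _ x hx, hU0 e' x hx, hU0 e _ fun h => hx (hX' e' x h), smul_zero, add_zero]
  have hfix : ∀ e, ∀ x ∈ X, e • w x = w x → π e x = x ∧ U e x = 0 := by
    intro e x hx h
    rw [hU1 e x hx] at h
    have h1 : π e x = x := by
      by_contra hne
      have := (linearIndependent_iff'.1 hli {⟨π e x, hX e x hx⟩, ⟨x, hx⟩}
        (fun z => if z.1 = x then -1 else (U e x).val) (by
          rw [Finset.sum_pair (by simpa using hne)]
          simp [hne, h])) ⟨x, hx⟩ (by simp)
      simp at this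
    refine ⟨h1, Un.ext ?_⟩
    rw [h1] at h
    exact smul_left_injective Om (hw0 x hx) (h.trans (one_smul _ _).symm)
  let uh : E → (Om →₀ ℤ) →+ Un Om := fun e =>
    Finsupp.liftAddHom fun x => zmultiplesHom _ (U e x)
  have huh : ∀ e x n, uh e (Finsupp.single x n) = n • U e x := fun e x n => by simp [uh]
  have hm : ∀ e e' y, uh (e * e') y = uh e (π e' • y) + π e • uh e' y := by
    intro e e' y
    induction y using Finsupp.induction_linear with
    | zero => simp
    | add y z hy hz =>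
      simp only [smul_add, map_add, hy, hz]
      abel
    | single x n => rw [smul_single, huh, huh, huh, hUm, smul_add, smul_comm (π e) n]
  have hk : ∀ g g', π g = 1 → π g' = 1 → ∀ y, uh (g * g') y = uh g y + uh g' y :=
    fun g g' h h' y => by rw [hm, h, h', one_smul, one_smul]
  have h1 : ∀ y, uh 1 y = 0 := fun y => by
    simpa using hk 1 1 (map_one π) (map_one π) y
  have hpow : ∀ g, π g = 1 → ∀ (n : ℕ) y, uh (g ^ n) y = n • uh g y := by
    intro g hg n y
    induction n with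
    | zero => simpa using h1 y
    | succ n ih => rw [pow_succ, hk _ _ (by rw [map_pow, hg, one_pow]) hg, ih, succ_nsmul]
  have hzero : ∀ e, (∀ x ∈ X, U e x = 0) → ∀ y, uh e y = 0 := by
    intro e he y
    induction y using Finsupp.induction_linear with
    | zero => simp
    | add y z hy hz => rw [map_add, hy, hz, add_zero]
    | single x n =>
      rw [huh]
      by_cases hx : x ∈ X
      · rw [he x hx, smul_zero]
      · rw [hU0 e x hx, smul_zero]
  let M : AddSubgroup (Om →₀ ℤ) :=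
    { carrier := {y | y.support ⊆ X ∧ ∀ g, π g = 1 → uh g y = 0}
      zero_mem' := ⟨by simp, fun g _ => map_zero _⟩
      add_mem' := fun hy hz => ⟨Finsupp.support_add.trans (Finset.union_subset hy.1 hz.1),
        fun g hg => by rw [map_add, hy.2 g hg, hz.2 g hg, add_zero]⟩
      neg_mem' := fun hy => ⟨by simpa using hy.1, fun g hg => by rw [map_neg, hy.2 g hg, neg_zero]⟩ }
  have hdep : ∀ e e', π e = π e' → ∀ y ∈ M, uh e y = uh e' y := by
    intro e e' h y hy
    have h2 : π (e'⁻¹ * e) = 1 := by rw [map_mul, map_inv, h, inv_mul_cancel]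
    have := hm e' (e'⁻¹ * e) y
    rwa [mul_inv_cancel_left, h2, one_smul, hy.2 _ h2, smul_zero, add_zero] at this
  have hstab : Stab π.range M := by
    rintro _ ⟨e, rfl⟩ y hy
    refine ⟨fun x hx => ?_, fun g hg => ?_⟩
    · obtain ⟨z, hz, rfl⟩ := Finset.mem_image.1 (Finsupp.mapDomain_support hx)
      exact hX e z (hy.1 hz)
    · have h2 := hm g e y
      rw [hg, one_smul, hdep (g * e) e (by rw [map_mul, hg, one_mul]) y hy] at h2
      simpa using h2
  let sec : Ga → E := Function.invFun π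
  have hsec : ∀ e, π (sec (π e)) = π e := fun e => Function.invFun_eq ⟨e, rfl⟩
  let c : Ga → (Om →₀ ℤ) → Un Om := fun s y => uh (sec s) y
  have hc : ∀ e, ∀ y ∈ M, c (π e) y = uh e y := fun e y hy => hdep _ _ (hsec e) y hy
  have hcoc : Coc π.range M c := by
    refine ⟨fun s _ x _ y _ => map_add _ _ _, ?_⟩
    rintro _ ⟨e, rfl⟩ _ ⟨e', rfl⟩ y hy
    rw [← map_mul, hc _ y hy, hc _ y hy, hc _ _ (hstab _ ⟨e', rfl⟩ y hy), hm]
  choose Hx hHo hHx using hop
  let N : Subgroup Ga := E0.map π ⊓ ⨅ x : X, Hx (w x)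
  have hN : ∀ ν ∈ N, ∃ e, π e = ν ∧ ∀ x ∈ X, e • w x = w x := by
    rintro _ ⟨⟨e, he, rfl⟩, h⟩
    exact ⟨e, rfl, fun x hx => hHx (w x) e he (Subgroup.mem_iInf.1 h ⟨x, hx⟩)⟩
  have hNo : IsOpen (N : Set Ga) := by
    rw [Subgroup.coe_inf, Subgroup.coe_iInf]
    exact hE0.inter (isOpen_iInter_of_finite fun x => hHo _)
  obtain ⟨H', hH'o, hH'le, hT3, β, hβ⟩ := hP X π.range N M c r (hcard.trans hn) hNo
    (inf_le_left.trans (Subgroup.map_le_range π E0))
    (hi.imp fun i h => ⟨h.1, by rintro _ ⟨e, rfl⟩; exact h.2 e⟩)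
    (by rintro _ ⟨e, rfl⟩; exact hX e)
    (fun ν hν x hx => by
      obtain ⟨e, rfl, he⟩ := hN ν hν
      exact (hfix e x hx (he x hx)).1) hr (fun y hy => hy.1)
    (fun x hx => ⟨Finsupp.support_single_subset.trans (by simpa using hx), fun g hg => by
      rw [← hzero (g ^ r) (fun x hx => (hfix _ x hx (hexp g hg _)).2) (Finsupp.single x 1),
        hpow g hg, huh, huh, one_smul, natCast_zsmul]⟩) hstab hcoc
    (fun ν hν y hy => by
      obtain ⟨e, rfl, he⟩ := hN ν hν
      rw [hc e y hy, hzero e fun x hx => (hfix e x hx (he x hx)).2])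
  obtain ⟨B, hB⟩ := exists_ext hβ.1
  let w' : Om → W := fun x => (B (Finsupp.single x 1)).val⁻¹ • w x
  let v : W := ∑ x ∈ X, w' x
  let Γ : AddSubgroup ((Om →₀ ℤ) →+ Un Om) :=
    { carrier := {γ | ∃ g, π g = 1 ∧ uh g = γ}
      zero_mem' := ⟨1, map_one π, AddMonoidHom.ext h1⟩
      add_mem' := by
        rintro _ _ ⟨g, hg, rfl⟩ ⟨g', hg', rfl⟩
        exact ⟨g * g', by rw [map_mul, hg, hg', mul_one], AddMonoidHom.ext (hk g g' hg hg')⟩
      neg_mem' := by
        rintro _ ⟨g, hg, rfl⟩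
        have hg' : π g⁻¹ = 1 := by rw [map_inv, hg, inv_one]
        refine ⟨g⁻¹, hg', AddMonoidHom.ext fun y => ?_⟩
        have := hk g⁻¹ g hg' hg y
        rw [inv_mul_cancel, h1] at this
        exact eq_neg_of_add_eq_zero_left this.symm }
  have : Finite Γ := Finite.of_surjective
    (fun g : π.ker => (⟨uh g, g, g.2, rfl⟩ : Γ)) (by
      rintro ⟨_, g, hg, rfl⟩
      exact ⟨⟨g, hg⟩, rfl⟩)
  let P : (Om →₀ ℤ) →+ (Om →₀ ℤ) := Finsupp.filterAddHom (· ∈ X)
  have hPs : ∀ x ∈ X, P (Finsupp.single x 1) = Finsupp.single x 1 := fun x hx =>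
    Finsupp.filter_single_of_pos _ hx
  have hPu : ∀ e y, uh e (P y) = uh e y := by
    intro e y
    induction y using Finsupp.induction_linear with
    | zero => simp
    | add y z hy hz => simp only [map_add, hy, hz]
    | single x n =>
      by_cases hx : x ∈ X
      · exact congrArg _ (Finsupp.filter_single_of_pos _ hx)
      · rw [show P (Finsupp.single x n) = 0 from Finsupp.filter_single_of_neg _ hx, map_zero, huh,
          hU0 e x hx, smul_zero]
  have hle : H' ≤ (MulAction.stabilizer E v).map π := by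
    intro s hsH
    obtain ⟨e, rfl⟩ := hH'le hsH
    let δ : (Om →₀ ℤ) →+ Un Om :=
      { toFun := fun y => B y - (π e)⁻¹ • (B (π e • y) + uh e y)
        map_zero' := by simp
        map_add' := fun y z => by
          simp only [smul_add, map_add]
          abel }
    obtain ⟨g, hg, hgδ⟩ := double_ann Γ (δ.comp P) fun y hy => by
      have hyM : P y ∈ M := ⟨fun x hx => (Finset.mem_filter.1 hx).2, fun g hg => by
        rw [hPu]
        exact hy _ ⟨g, hg, rfl⟩⟩
      have h2 := hβ.2 _ hsH _ hyM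
      rw [one_smul, hc e _ hyM, ← hB _ hyM, ← hB _ (hstab _ ⟨e, rfl⟩ _ hyM)] at h2
      show B (P y) - (π e)⁻¹ • (B (π e • P y) + uh e (P y)) = 0
      rw [h2, add_sub_cancel, inv_smul_smul, sub_self]
    have hπ : π (e * g) = π e := by rw [map_mul, hg, mul_one]
    refine ⟨e * g, ?_, hπ⟩
    have key : ∀ x ∈ X, (e * g) • w' x = w' (π e x) := by
      intro x hx
      have h2 := hm e g (Finsupp.single x 1)
      have h3 : uh g (Finsupp.single x 1) = δ (Finsupp.single x 1) := by
        rw [hgδ, AddMonoidHom.comp_apply, hPs x hx]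
      have h4 : U (e * g) x = π e • B (Finsupp.single x 1) - B (Finsupp.single (π e x) 1) := by
        rw [hg, one_smul, h3, huh (e * g), one_smul] at h2
        rw [h2, ← smul_single]
        simp only [δ, AddMonoidHom.coe_mk, ZeroHom.coe_mk]
        rw [smul_sub, smul_inv_smul]
        abel
      simp only [w']
      rw [hs, hU1 _ x hx, hπ, smul_smul, h4, Un.val_sub, Un.val_smul, map_inv₀,
        AlgEquiv.smul_def, div_eq_mul_inv, inv_mul_cancel_left₀ (by simp)]
    show (e * g) • v = v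
    rw [Finset.smul_sum, Finset.sum_congr rfl key]
    refine Finset.sum_bij (fun x _ => π e x) (hX e) (fun x _ y _ h => (π e).injective h)
      (fun y hy => ⟨π e⁻¹ y, hX _ y hy, by simp⟩) fun _ _ => rfl
  refine ⟨MulAction.stabilizer E v, ⟨Hx v, hHo v, hHx v⟩, fun g hg hg1 => ?_,
    (Nat.cast_le.2 (Subgroup.relIndex_le_of_le_left hle (relIndex_ne hH'o))).trans hT3⟩
  have hgx : ∀ x ∈ X, g • w x = w x := by
    intro x hx
    have h2 : ∑ z : X, ((B (Finsupp.single z.1 1)).val⁻¹ * ((U g z).val - 1)) • w z = 0 := by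
      have h3 : g • v - v = 0 := sub_eq_zero.2 hg
      rw [Finset.smul_sum, ← Finset.sum_sub_distrib, ← Finset.sum_coe_sort] at h3
      refine Eq.trans (Finset.sum_congr rfl fun z _ => ?_) h3
      simp only [w']
      rw [hs, hU1 g z z.2, hg1, AlgEquiv.one_apply, AlgEquiv.one_apply, smul_smul, mul_sub, mul_one,
        sub_smul]
    have h4 := Fintype.linearIndependent_iff.1 hli _ h2 ⟨x, hx⟩
    rw [mul_eq_zero, sub_eq_zero, or_iff_right (by simp)] at h4
    rw [hU1 g x hx, h4, hg1, one_smul, AlgEquiv.one_apply]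
  intro z
  have hz : z ∈ Submodule.span Om (w '' X) := hspan ▸ Submodule.mem_top
  induction hz using Submodule.span_induction with
  | mem _ h =>
    obtain ⟨x, hx, rfl⟩ := h
    exact hgx x hx
  | zero => exact smul_zero g
  | add y z _ _ hy hz => rw [smul_add, hy, hz]
  | smul a y _ hy => rw [hs, hy, hg1, AlgEquiv.one_apply]

end

section

open H85 H61 MvPolynomial Matrix

theorem rowTs : H85.RowDS → H85.RowFIN → H31.RowTs := by
  intro hDS hF N B hB d hd f hf h0 K hK
  have := galOm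
  obtain ⟨i, hi⟩ := IsAlgClosed.exists_pow_nat_eq (-1 : Om) two_pos
  have hA := stabilizer_isOpen_of_isIntegral (K := ℚ) i
  have hE := open_E0 (f := f) hA
  obtain ⟨U, hU, hk, hb⟩ := hB _ (Fin (N + 1) → Om) (pr f _) (E0 f _) (Module.finrank_fin_fun _)
    semi hE opn_stab ⟨i, hi, fun e => e.2.1⟩ (finite_ker hF hd hf h0) faithful
  obtain ⟨φ, a, ha, hφ⟩ := descent U h0 (hDS _ _ _ _ U semi hE opn_stab hU fun g hg h w => by
    rw [hk g hg h, one_smul])
  obtain ⟨H, hH, hHU⟩ := hU
  have ho : IsOpen ((U.map (pr f _) : Subgroup Ga) : Set Ga) := by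
    refine Subgroup.isOpen_mono (H₁ := (E0 f _).map (pr f _) ⊓ H) ?_ (hE.inter hH)
    rintro _ ⟨⟨e, he, rfl⟩, h⟩
    exact ⟨e, hHU e he h, rfl⟩
  have l1 := U.map_le_range (pr f _)
  have l2 : (pr f (MulAction.stabilizer Ga i)).range ≤ (pr f ⊤).range := range_pr.le.trans inf_le_left
  obtain ⟨h1, h2⟩ := field_part ho (l1.trans l2)
  obtain rfl : K = IntermediateField.fixedField (pr f ⊤).range := by
    ext x
    rw [hK, IntermediateField.mem_fixedField_iff]
    simp only [mem_range_iff hf]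
  refine ⟨_, h1, IntermediateField.fixedField_antitone (l1.trans l2), ⟨φ, a, ha, fun j m => ?_⟩,
    ?_⟩
  · rw [IntermediateField.mem_fixedField_iff]
    rintro _ ⟨e, he, rfl⟩
    exact hφ j m e he
  · rw [h2, ← Subgroup.relIndex_mul_relIndex _ _ _ l1 l2, mul_comm, Nat.cast_mul]
    have h3 : (pr f (MulAction.stabilizer Ga i)).range.relIndex (pr f ⊤).range ≤ 2 :=
      range_pr.symm ▸ index_i hi _
    exact mul_le_mul (by exact_mod_cast h3) hb (Nat.cast_nonneg _) (by norm_num)

end

end Pool.Agent.MP_db5b97_nt.H53
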