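import Pool.Agent.MP_db5b97_nt.H31.SpecT

/-! Duals of sublattices of small permutation modules. -/

namespace Pool.Agent.MP_db5b97_nt.H53

open H85 H31 Polynomial MulAction Finset

theorem xl_cyc {A : Type} [CommRing A] (s : A) {p : ℕ} (hp : p.Prime) :
    (∑ i ∈ range p, s ^ i) ∣ ∏ k ∈ range (p - 1), (1 - s ^ (k + 1)) - p := by
  have : Fact p.Prime := ⟨hp⟩
  have hz := Complex.isPrimitiveRoot_exp p hp.ne_zero
  generalize Complex.exp _ = z at hz
  have h1 : p - 1 + 1 = p := Nat.sub_add_cancel hp.pos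
  have h2 := IsPrimitiveRoot.prod_one_sub_pow_eq_order (n := p - 1) (μ := z) (h1.symm ▸ hz)
  have h3 : minpoly ℤ z ∣ ∏ k ∈ range (p - 1), (1 - X ^ (k + 1)) - (p : ℤ[X]) := by
    refine minpoly.isIntegrallyClosed_dvd (hz.isIntegral hp.pos) ?_
    simp only [map_sub, map_prod, map_pow, map_one, aeval_X, map_natCast, h2]
    rw [← Nat.cast_add_one, h1, sub_self]
  rw [← cyclotomic_eq_minpoly hz hp.pos, cyclotomic_prime] at h3
  simpa [map_prod, map_sum] using map_dvd (aeval s) h3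

theorem xl_ring {A : Type} [CommRing A] (s t : A) {p : ℕ} (hp : p.Prime) (K : Finset ℕ)
    (hK : K ⊆ range (p - 1)) (hc : K.card < p - 1) :
    ∃ a b c : A, (p : A) = a * ∑ i ∈ range p, s ^ i + b * ∏ k ∈ K, (t - s ^ (k + 1)) +
      (s - 1) * ((t - 1) * c) := by
  obtain ⟨a, ha⟩ := xl_cyc s hp
  obtain ⟨j, hj, hj'⟩ := exists_mem_notMem_of_card_lt_card (s := K) (t := range (p - 1))
    (by simpa using hc)
  obtain ⟨b, hb⟩ : s - 1 ∣ ∏ k ∈ range (p - 1) \ K, (1 - s ^ (k + 1)) := by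
    refine Dvd.dvd.trans ?_ (dvd_prod_of_mem _ (mem_sdiff.2 ⟨hj, hj'⟩))
    rw [← dvd_neg, neg_sub]
    exact sub_one_dvd_pow_sub_one s (j + 1)
  obtain ⟨c, hc⟩ : t - 1 ∣ ∏ k ∈ K, (t - s ^ (k + 1)) - ∏ k ∈ K, (1 - s ^ (k + 1)) := by
    rw [← Ideal.mem_span_singleton, ← Ideal.Quotient.eq, map_prod, map_prod]
    refine prod_congr rfl fun k _ => Ideal.Quotient.eq.2 (Ideal.mem_span_singleton.2 ?_)
    simp
  rw [← prod_sdiff hK, hb] at ha
  exact ⟨-a, (s - 1) * b, -(b * c), by linear_combination -ha - (s - 1) * b * hc⟩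

section Grp

variable {P X : Type} [Group P] [Finite P] [Fintype X] [MulAction P X] {p : ℕ}

theorem xl_ind (hp : p.Prime) (hP : IsPGroup p P) (hX : Fintype.card X < p * (p - 1)) (a : X)
    (ha : stabilizer P a ≠ ⊤) : (stabilizer P a).index = p := by
  have : Fact p.Prime := ⟨hp⟩
  obtain ⟨n, hn⟩ := hP.index (stabilizer P a)
  have h1 : p ^ n < p ^ 2 := by
    rw [← hn, index_stabilizer]
    refine lt_of_le_of_lt ?_ (hX.trans_le (by rw [sq]; exact Nat.mul_le_mul_left _ (by omega)))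
    rw [← Nat.card_eq_fintype_card, ← Set.ncard_univ]
    exact Set.ncard_le_ncard (Set.subset_univ _)
  have h2 := (Nat.pow_lt_pow_iff_right hp.one_lt).1 h1
  interval_cases n
  · exact absurd (Subgroup.index_eq_one.1 hn) ha
  · simpa using hn

theorem xl_ab (hp : p.Prime) (hP : IsPGroup p P) (hX : Fintype.card X < p * (p - 1)) (a : X)
    (g : P) : g ^ p • a = a ∧ ∀ g' : P, (g * g') • a = (g' * g) • a := by
  have : Fact p.Prime := ⟨hp⟩
  by_cases ha : stabilizer P a = ⊤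
  · have h : ∀ g : P, g • a = a := fun g => (eq_top_iff.1 ha) (Subgroup.mem_top g)
    exact ⟨h _, fun g' => by rw [h, h]⟩
  have hi := xl_ind hp hP hX a ha
  have : (stabilizer P a).Normal := by
    obtain ⟨n, hn⟩ := IsPGroup.iff_card.1 hP
    refine Subgroup.normal_of_index_eq_minFac_card ?_
    rw [hi, hn, hp.pow_minFac]
    rintro rfl
    have := (stabilizer P a).index_dvd_card
    rw [hi, hn, pow_zero, Nat.dvd_one] at this
    exact hp.one_lt.ne' this
  refine ⟨?_, fun g' => ?_⟩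
  · have := (stabilizer P a).pow_index_mem g
    rwa [hi] at this
  · have hc : IsCyclic (P ⧸ stabilizer P a) := isCyclic_of_prime_card hi
    have h1 : (g' * g)⁻¹ * (g * g') ∈ stabilizer P a := by
      rw [← QuotientGroup.eq, QuotientGroup.mk_mul, QuotientGroup.mk_mul]
      exact hc.isMulCommutative.is_comm.comm _ _
    rwa [mem_stabilizer_iff, mul_smul, inv_smul_eq_iff] at h1

end Grp

section Com

variable {P X : Type} [CommGroup P] [Finite P] [Fintype X] [MulAction P X] {p : ℕ}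

omit [Finite P] in
theorem xl_pow (hp : p.Prime) (hw : ∀ g : P, g ^ p = 1) (H : Subgroup P)
    (hi : H.index = p) {σ : P} (hσ : σ ∉ H) (g : P) : ∃ i < p, (σ ^ i)⁻¹ * g ∈ H := by
  have : Fact p.Prime := ⟨hp⟩
  obtain ⟨i, hi⟩ := mem_powers_of_prime_card (G := P ⧸ H) hi (g := (σ : P ⧸ H))
    (g' := (g : P ⧸ H)) (fun hc => hσ ((QuotientGroup.eq_one_iff σ).1 hc))
  refine ⟨i % p, Nat.mod_lt _ hp.pos, ?_⟩
  rw [← pow_eq_pow_mod i (hw σ)]
  exact QuotientGroup.eq.1 (by rw [QuotientGroup.mk_pow]; exact hi)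

theorem xl_T (hp : p.Prime) (hP : IsPGroup p P) (hX : Fintype.card X < p * (p - 1)) :
    ∃ T : Finset (Subgroup P), T.card < p - 1 ∧ (∀ H ∈ T, H.index = p) ∧
      ∀ a : X, stabilizer P a ≠ ⊤ → stabilizer P a ∈ T := by
  classical
  refine ⟨(univ.filter fun a : X => stabilizer P a ≠ ⊤).image fun a => stabilizer P a, ?_, ?_,
    fun a ha => mem_image_of_mem _ (by simpa using ha)⟩
  · refine Nat.lt_of_mul_lt_mul_left (a := p) (lt_of_le_of_lt ?_ hX)
    refine (mul_card_image_le_card _ p fun H hH => ?_).trans (card_le_univ _)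
    obtain ⟨a, ha, rfl⟩ := mem_image.1 hH
    have ha' := (mem_filter.1 ha).2
    rw [← xl_ind hp hP hX a ha', index_stabilizer, ← Set.ncard_coe_finset]
    refine Set.ncard_le_ncard ?_
    rintro _ ⟨h, rfl⟩
    have : stabilizer P (h • a) = stabilizer P a := by
      ext k
      rw [mem_stabilizer_iff, mem_stabilizer_iff, smul_comm, smul_left_cancel_iff]
    simp only [coe_filter, mem_filter, mem_univ, true_and, Set.mem_ofPred_eq, this]
    exact ⟨ha', trivial⟩
  · intro H hH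
    obtain ⟨a, ha, rfl⟩ := mem_image.1 hH
    exact xl_ind hp hP hX a (mem_filter.1 ha).2

theorem xl_tau (hp : p.Prime) (hP : IsPGroup p P) (T : Finset (Subgroup P)) (hT : T.card < p - 1)
    (hi : ∀ H ∈ T, H.index = p) (Q : Subgroup P) (hQ : Q ≠ ⊤) : ∃ τ ∉ Q, ∀ H ∈ T, τ ∉ H := by
  classical
  have : Fact p.Prime := ⟨hp⟩
  by_contra hc
  push Not at hc
  obtain ⟨H, hH, -, h2⟩ := Subgroup.exists_index_le_card_of_leftCoset_cover
    (s := insert Q T) (H := fun H => H) (g := fun _ => (1 : P)) (by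
      refine Set.eq_univ_of_forall fun g => ?_
      simp only [Set.mem_iUnion, mem_insert]
      by_cases hg : g ∈ Q
      · exact ⟨Q, Or.inl rfl, g, hg, one_mul g⟩
      · obtain ⟨H, h1, h2⟩ := hc g hg
        exact ⟨H, Or.inr h1, g, h2, one_mul g⟩)
  have h3 := card_insert_le Q T
  rcases mem_insert.1 hH with rfl | h4
  · obtain ⟨n, hn⟩ := hP.index H
    rcases n with _ | n
    · exact hQ (Subgroup.index_eq_one.1 hn)
    · have := Nat.le_self_pow (n := n + 1) (by omega) p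
      omega
  · have := hi H h4
    omega

end Com

section Rep

variable {G P : Type} [Group G] [CommGroup P] (ι : P →* G)

/-- the action of the group ring -/
noncomputable def rp (V : Type) [AddCommGroup V] [DistribMulAction G V] :
    MonoidAlgebra ℤ P →ₐ[ℤ] Module.End ℤ V :=
  MonoidAlgebra.lift ℤ _ P ((DistribMulAction.toModuleEnd ℤ V).comp ι)

theorem rp_of {V : Type} [AddCommGroup V] [DistribMulAction G V] (g : P) (v : V) :
    rp ι V (MonoidAlgebra.of ℤ P g) v = ι g • v := by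
  rw [rp, MonoidAlgebra.lift_of]
  rfl

theorem rp_nm {V : Type} [AddCommGroup V] [DistribMulAction G V] (g : P) (p : ℕ) (v : V) :
    rp ι V (∑ i ∈ range p, MonoidAlgebra.of ℤ P g ^ i) v = Nm (ι g) p v := by
  rw [map_sum, LinearMap.sum_apply, Nm_apply]
  exact sum_congr rfl fun i _ => by rw [← map_pow, rp_of, map_pow]

theorem rp_df {V : Type} [AddCommGroup V] [DistribMulAction G V] (g : P) (v : V) :
    rp ι V (MonoidAlgebra.of ℤ P g - 1) v = Df (ι g) v := by
  rw [map_sub, LinearMap.sub_apply, rp_of, map_one, Df_apply]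
  rfl

theorem rp_mul {V : Type} [AddCommGroup V] [DistribMulAction G V] (a b : MonoidAlgebra ℤ P)
    (v : V) : rp ι V (a * b) v = rp ι V a (rp ι V b v) := by
  rw [map_mul]
  rfl

theorem rp_zero {X M : Type} [MulAction G X] [AddCommGroup M] [DistribMulAction G M]
    (j : M →+ (X →₀ ℤ)) (hj : Function.Injective j) (he : ∀ (g : G) m, j (g • m) = g • j m)
    (a : MonoidAlgebra ℤ P) (ha : ∀ x : X, ∃ (g h : P) (b : MonoidAlgebra ℤ P),
      a = b * (MonoidAlgebra.of ℤ P g - MonoidAlgebra.of ℤ P h) ∧ ι g⁻¹ • x = ι h⁻¹ • x)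
    (n : Du M) : rp ι (Du M) a n = 0 := by
  have h1 : ∀ (a : MonoidAlgebra ℤ P) (m : M),
      rp ι (Du M) a n m = n (rp (ι.comp invMonoidHom) M a m) := by
    intro a m
    induction a using MonoidAlgebra.induction_on with
    | of g => rw [rp_of, rp_of]; simp
    | add x y hx hy => simp [hx, hy]
    | smul r x hx => simp [hx]
  have h2 : ∀ (a : MonoidAlgebra ℤ P) (m : M),
      j (rp (ι.comp invMonoidHom) M a m) = rp (ι.comp invMonoidHom) (X →₀ ℤ) a (j m) := by
    intro a m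
    induction a using MonoidAlgebra.induction_on with
    | of g => rw [rp_of, rp_of, he]
    | add x y hx hy => simp [hx, hy]
    | smul r x hx => simp [hx]
  have h3 : rp (ι.comp invMonoidHom) (X →₀ ℤ) a = 0 := by
    refine Finsupp.lhom_ext fun x r => ?_
    obtain ⟨g, h, b, h4, h5⟩ := ha x
    rw [h4, rp_mul, map_sub, LinearMap.sub_apply, rp_of, rp_of, Finsupp.comapSMul_single,
      Finsupp.comapSMul_single]
    simp only [MonoidHom.comp_apply, invMonoidHom_apply, h5, sub_self, map_zero,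
      LinearMap.zero_apply]
  ext m
  have h4 : rp (ι.comp invMonoidHom) M a m = 0 := hj (by rw [h2, h3, map_zero]; rfl)
  rw [h1, h4, map_zero]
  rfl

end Rep

theorem xl_tf {M : Type} [AddCommGroup M] (a : ℕ) (n : Du M) (ha : a ≠ 0) (h : a • n = 0) :
    n = 0 := by
  ext m
  have h1 := congrArg (fun f : Du M => Zt.val (f m)) h
  simp only [Hm.nsmul_apply, map_nsmul, Hm.zero_apply, map_zero, smul_eq_zero, ha, false_or] at h1
  exact Zt.val.injective (h1.trans (map_zero _).symm)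

theorem xl_core {p : ℕ} {G X M P : Type} [Group G] [Fintype X] [MulAction G X] [AddCommGroup M]
    [DistribMulAction G M] [CommGroup P] [Finite P] (ι : P →* G) (j : M →+ (X →₀ ℤ))
    (hp : p.Prime) (hX : Fintype.card X < p * (p - 1)) (hj : Function.Injective j)
    (he : ∀ (g : G) m, j (g • m) = g • j m) (hP : IsPGroup p P) (hw : ∀ g : P, g ^ p = 1)
    (Q : Subgroup P) (hQ : Q ≠ ⊤) :
    ∃ τ ∉ Q, (∀ (g : P) (n : Du M), Nm (ι τ) p (ι g • n) = Nm (ι τ) p n) ∧
      ∀ (σ : P) (n : Du M), Nm (ι σ) p n = 0 → ∃ n' : Du M, p • n = Df (ι σ) (Df (ι τ) n') := by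
  classical
  let _ : MulAction P X := MulAction.compHom X ι
  have hι : ∀ (g : P) (x : X), ι g • x = g • x := fun _ _ => rfl
  obtain ⟨T, hT, hi, hs⟩ := xl_T (X := X) hp hP hX
  obtain ⟨τ, hτ, hτ'⟩ := xl_tau hp hP T hT hi Q hQ
  have hm : ∀ (g : P) (x : X), g ∉ stabilizer P x → stabilizer P x ∈ T := fun g x hg =>
    hs x fun h => hg (h ▸ Subgroup.mem_top g)
  have hinv : ∀ (g h : P) (x : X), h⁻¹ * g ∈ stabilizer P x → ι g⁻¹ • x = ι h⁻¹ • x := by
    intro g h x hx
    rw [hι, hι, inv_smul_eq_iff, smul_smul, mul_comm]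
    exact hx.symm
  refine ⟨τ, hτ, fun g n => ?_, fun σ n hn => ?_⟩
  · have := rp_zero ι j hj he ((∑ i ∈ range p, MonoidAlgebra.of ℤ P τ ^ i) *
      (MonoidAlgebra.of ℤ P g - 1)) (fun x => ?_) n
    · rwa [rp_mul, rp_nm, rp_df, Df_apply, map_sub, sub_eq_zero] at this
    by_cases hg : g ∈ stabilizer P x
    · exact ⟨g, 1, _, by rw [map_one], hinv _ _ _ (by simpa using hg)⟩
    · obtain ⟨i, -, h1⟩ := xl_pow hp hw _ (hi _ (hm g x hg)) (hτ' _ (hm g x hg)) g
      refine ⟨g, τ ^ i, ∑ i ∈ range p, MonoidAlgebra.of ℤ P τ ^ i, ?_, hinv _ _ _ h1⟩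
      obtain ⟨c, hc⟩ := sub_one_dvd_pow_sub_one (MonoidAlgebra.of ℤ P τ) i
      have h2 := geom_sum_mul (MonoidAlgebra.of ℤ P τ) p
      rw [← map_pow, hw, map_one] at h2
      rw [map_pow]
      linear_combination (∑ i ∈ range p, MonoidAlgebra.of ℤ P τ ^ i) * hc + c * h2
  · have hk : ∀ H : Subgroup P, ∃ k, k < p - 1 ∧ (H ∈ T → σ ∉ H → (σ ^ (k + 1))⁻¹ * τ ∈ H) := by
      intro H
      by_cases h : H ∈ T ∧ σ ∉ H
      · obtain ⟨i, h1, h2⟩ := xl_pow hp hw H (hi H h.1) h.2 τ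
        rcases i with _ | i
        · exact absurd (by simpa using h2) (hτ' H h.1)
        · exact ⟨i, by omega, fun _ _ => h2⟩
      · exact ⟨0, by omega, fun h1 h2 => absurd ⟨h1, h2⟩ h⟩
    choose k hk hk' using hk
    obtain ⟨a, b, c, e⟩ := xl_ring (MonoidAlgebra.of ℤ P σ) (MonoidAlgebra.of ℤ P τ) hp
      (T.image k) (fun i hi => by
        obtain ⟨H, -, rfl⟩ := mem_image.1 hi
        exact mem_range.2 (hk H)) (card_image_le.trans_lt hT)
    obtain ⟨W, hW⟩ : ∃ W, W = ∏ i ∈ T.image k,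
      (MonoidAlgebra.of ℤ P τ - MonoidAlgebra.of ℤ P σ ^ (i + 1)) := ⟨_, rfl⟩
    rw [← hW] at e
    have h1 := rp_zero ι j hj he ((MonoidAlgebra.of ℤ P σ - 1) * W) (fun x => ?_) n
    · rw [rp_mul, rp_df, Df_apply, sub_eq_zero] at h1
      have h2 : Nm (ι σ) p (rp ι (Du M) W n) = 0 := by
        rw [← rp_nm, ← rp_mul, mul_comm, rp_mul, rp_nm, hn, map_zero]
      have h3 : ∀ i : ℕ, ι σ ^ i • rp ι (Du M) W n = rp ι (Du M) W n := fun i =>
        (stabilizer G _).pow_mem h1 i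
      rw [Nm_apply, sum_congr rfl fun i _ => h3 i, sum_const, card_range] at h2
      have h4 := xl_tf p _ hp.ne_zero h2
      refine ⟨rp ι (Du M) c n, ?_⟩
      have h5 := congrArg (fun z => rp ι (Du M) z n) e
      simp only [map_add, LinearMap.add_apply, rp_mul, rp_nm, rp_df, hn, h4, map_zero, zero_add,
        map_natCast, Module.End.natCast_apply] at h5
      exact h5
    by_cases hg : σ ∈ stabilizer P x
    · exact ⟨σ, 1, W, by rw [map_one, mul_comm], hinv _ _ _ (by simpa using hg)⟩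
    · obtain ⟨d, hd⟩ : MonoidAlgebra.of ℤ P τ - MonoidAlgebra.of ℤ P σ ^ (k _ + 1) ∣ W :=
        hW ▸ dvd_prod_of_mem _ (mem_image_of_mem k (hm σ x hg))
      refine ⟨τ, _, (MonoidAlgebra.of ℤ P σ - 1) * d, ?_, hinv _ _ _ (hk' _ (hm σ x hg) hg)⟩
      rw [map_pow, hd]
      ring

theorem rowXL : RowXL := by
  intro p G X M _ _ _ _ _ _ j hp hX hf hj he
  have hab : ∀ Q : Subgroup G, IsPGroup p Q → ∀ g ∈ Q, g ^ p = 1 ∧ ∀ g' ∈ Q, g * g' = g' * g := by
    intro Q hQ g hg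
    refine ⟨hf _ fun x => (xl_ab hp hQ hX x ⟨g, hg⟩).1, fun g' hg' => ?_⟩
    rw [eq_comm, ← inv_mul_eq_one]
    refine hf _ fun x => ?_
    rw [mul_smul, inv_smul_eq_iff]
    exact (xl_ab hp hQ hX x ⟨g, hg⟩).2 ⟨g', hg'⟩
  refine ⟨xl_tf, hab, fun Q Q' hQ hle => ?_⟩
  let _ : CommGroup Q := { (inferInstance : Group Q) with
    mul_comm := fun a b => Subtype.ext ((hab Q hQ a a.2).2 b b.2) }
  obtain ⟨τ, h1, h2, h3⟩ := xl_core (P := Q) Q.subtype j hp hX hj he hQ
    (fun g => Subtype.ext (hab Q hQ g g.2).1) (Q'.subgroupOf Q)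
    (fun h => hle (Subgroup.subgroupOf_eq_top.1 h))
  exact ⟨τ, τ.2, fun h => h1 (Subgroup.mem_subgroupOf.2 h), fun g hg => h2 ⟨g, hg⟩,
    fun σ hσ => h3 ⟨σ, hσ⟩⟩

end Pool.Agent.MP_db5b97_nt.H53
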